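import Pool.Agent.H90.GA.CBas

/-!
Row CNR of the board ga: the coefficient function near the unit matrix.
-/

set_option autoImplicit false

namespace Pool.Agent.H90.GA

open MeasureTheory Set Filter Topology
open Pool.Agent.H34.GM Pool.Agent.H34.GZ Pool.Agent.H34.GU Pool.Agent.H34.GA
open Pool.Agent.H74.GA

/-- CNR -/
theorem pf_CNR : T_VLM → T_CNR := by
  intro hV m hm1
  have hm1' : (1 : ℝ) ≤ m := by exact_mod_cast hm1
  refine ⟨4 * m, by linarith, ?_⟩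
  intro N _ T D hS F lam hF hn P hL hP w hw
  have hs0 : 0 ≤ sz (w - 1) := sz_nn _
  obtain ⟨hd, hi⟩ := inv_near hm1 (le_refl (sz (w - 1))) (by linarith)
  have hsi : 0 ≤ sz (w⁻¹ - 1) := sz_nn _
  have h1 := hL w⁻¹ (by nlinarith)
  have h2 : 0 ≤ P * sz (w⁻¹ - 1) := mul_nonneg hP hsi
  have key : ∀ ε : ℝ, 0 < ε → ‖c1 D F w - 1‖ ≤ P * sz (w⁻¹ - 1) + ε := by
    intro ε hε
    have hq : 0 < P * sz (w⁻¹ - 1) + ε := by linarith
    have h3 := c1_sub hV hS hF hd (inv_pos.2 hq)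
    rw [hn, Complex.ofReal_one, inv_inv, mul_one] at h3
    refine h3.trans ?_
    have h4 : (P * sz (w⁻¹ - 1) + ε)⁻¹ * ∑ x, ∫ z in D,
        ‖F ((mt z : Mat m) * w⁻¹) x - F (mt z) x‖ ^ 2 ∂(hm m) ≤ P * sz (w⁻¹ - 1) + ε := by
      rw [inv_mul_le_iff₀ hq]
      refine h1.trans ?_
      nlinarith
    linarith
  have h5 : ‖c1 D F w - 1‖ ≤ P * sz (w⁻¹ - 1) := le_of_forall_pos_le_add key
  refine h5.trans ?_
  have h6 : P * sz (w⁻¹ - 1) ≤ P * (2 * sz (w - 1)) := mul_le_mul_of_nonneg_left hi hP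
  have h7 : 0 ≤ P * sz (w - 1) := mul_nonneg hP hs0
  nlinarith

end Pool.Agent.H90.GA
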